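import Mathlib

/-!
# The gcd recursion with `n (n + 2 m)`: the first steps after a zero

After a zero `n` the value is `N (N + 2 m)`, `N = n + 1`. If `s` is the total decrease up to the index
`N + j - 1`, the next gcd divides `N (N + 2 m) - s` and `(N + j) (N + j + 2 m)`, hence their resultant
`(s - j ^ 2) ^ 2 - 4 j ^ 2 m ^ 2` with respect to `N`, which is odd. So the gcd is bounded in terms of `m`, `j` and
`s` alone and depends only on `N` modulo this number.
-/

namespace Pool.Agent.Results.MP_9227d9_nt.AfterAZero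

/-- The sequence of the problem: `a 1 = 4 m ^ 2` and `a n = |a (n - 1) - gcd (a (n - 1), n (n + 2 m))|` for `n ≥ 2`
(the value at `0` is not used). -/
def a (m : ℕ) : ℕ → ℕ
  | 0 => 1
  | 1 => 4 * m ^ 2
  | (n + 2) => ((a m (n + 1) : ℤ) - (Nat.gcd (a m (n + 1)) ((n + 2) * (n + 2 + 2 * m)) : ℕ)).natAbs

/-- The decrease `(n + 1) (n + 1 + 2 m) - a (n + j)`. -/
def drop (m n j : ℕ) : ℤ := ((n : ℤ) + 1) * ((n : ℤ) + 1 + 2 * m) - a m (n + j)

/-- The gcd subtracted at the index `i + 1`. -/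
def γ (m i : ℕ) : ℕ := Nat.gcd (a m i) ((i + 1) * (i + 1 + 2 * m))

/-- `(s - j ^ 2) ^ 2 - 4 j ^ 2 m ^ 2`. -/
def R (m j : ℕ) (s : ℤ) : ℤ := (s - (j : ℤ) ^ 2) ^ 2 - 4 * (j : ℤ) ^ 2 * (m : ℤ) ^ 2

lemma a_succ (m i : ℕ) (hi : 1 ≤ i) : a m (i + 1) = ((a m i : ℤ) - (γ m i : ℕ)).natAbs := by
  obtain ⟨k, rfl⟩ : ∃ k, i = k + 1 := ⟨i - 1, by omega⟩
  simp only [a, γ]

lemma a_after (m n : ℕ) (hn : 1 ≤ n) (h0 : a m n = 0) :
    a m (n + 1) = (n + 1) * (n + 1 + 2 * m) := by
  have h : γ m n = (n + 1) * (n + 1 + 2 * m) := by simp [γ, h0]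
  rw [a_succ m n hn, h0, h]
  simp only [Nat.cast_zero, zero_sub, Int.natAbs_neg, Int.natAbs_natCast]

lemma parity_step (x g y : ℕ) (hg : Odd g) (h : (y : ℤ) = |(x : ℤ) - g|) : Odd (x + y) := by
  rcases hg with ⟨r, hr⟩
  rcases abs_cases ((x : ℤ) - g) with ⟨h1, _⟩ | ⟨h1, _⟩ <;>
    · rw [h1] at h
      rw [← Nat.not_even_iff_odd, Nat.even_iff]
      omega

lemma parity (m : ℕ) (i : ℕ) (hi : 2 ≤ i) : Even (a m i + i) := by
  induction i, hi using Nat.le_induction with
  | base =>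
    have h := a_succ m 1 le_rfl
    have h1 : a m 1 = 4 * m ^ 2 := by simp only [a]
    have hγ : Even (γ m 1) := by
      have : 2 ∣ γ m 1 := by
        apply Nat.dvd_gcd
        · rw [h1]; exact ⟨2 * m ^ 2, by ring⟩
        · exact ⟨2 + 2 * m, by ring⟩
      exact (even_iff_two_dvd).mpr this
    have hint : ((a m 2 : ℤ)) = |(a m 1 : ℤ) - (γ m 1 : ℕ)| := by
      rw [h]; simp
    have h2 : Even (a m 1) := by rw [h1]; exact ⟨2 * m ^ 2, by ring⟩
    rcases hγ with ⟨r, hr⟩
    rcases h2 with ⟨t, ht⟩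
    rcases abs_cases ((a m 1 : ℤ) - (γ m 1 : ℕ)) with ⟨h3, _⟩ | ⟨h3, _⟩ <;>
      · rw [h3] at hint
        rw [Nat.even_iff]
        omega
  | succ i hi ih =>
    have h := a_succ m i (by omega)
    have hg1 : γ m i ∣ a m i := Nat.gcd_dvd_left _ _
    have hg2 : γ m i ∣ (i + 1) * (i + 1 + 2 * m) := Nat.gcd_dvd_right _ _
    have hγ : Odd (γ m i) := by
      rcases Nat.even_or_odd i with he | ho
      · have : Odd ((i + 1) * (i + 1 + 2 * m)) := by
          apply Odd.mul he.add_one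
          exact he.add_one.add_even ⟨m, by ring⟩
        exact Odd.of_dvd_nat this hg2
      · have : Odd (a m i) := by
          rcases ho with ⟨r, hr⟩
          rcases ih with ⟨t, ht⟩
          exact ⟨t - r - 1, by omega⟩
        exact Odd.of_dvd_nat this hg1
    have hint : ((a m (i + 1) : ℤ)) = |(a m i : ℤ) - (γ m i : ℕ)| := by
      rw [h]; simp
    have h3 := parity_step _ _ _ hγ hint
    rcases h3 with ⟨r, hr⟩
    rcases ih with ⟨t, ht⟩
    rw [Nat.even_iff]
    omega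

lemma zero_ge (m n : ℕ) (hm : 1 ≤ m) (h0 : a m n = 0) : 2 ≤ n := by
  by_contra hn
  have : n = 0 ∨ n = 1 := by omega
  rcases this with rfl | rfl
  · simp [a] at h0
  · simp [a] at h0
    omega

lemma gcd_dvd_R (m n j : ℕ) : ((γ m (n + j) : ℕ) : ℤ) ∣ R m j (drop m n j) := by
  have h1 : ((γ m (n + j) : ℕ) : ℤ) ∣ (a m (n + j) : ℤ) := by
    exact_mod_cast Nat.gcd_dvd_left _ _
  have h2 : ((γ m (n + j) : ℕ) : ℤ) ∣ (((n + j + 1) * (n + j + 1 + 2 * m) : ℕ) : ℤ) := by
    exact_mod_cast Nat.gcd_dvd_right _ _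
  set P : ℤ := (a m (n + j) : ℤ) with hP
  set Q : ℤ := (((n + j + 1) * (n + j + 1 + 2 * m) : ℕ) : ℤ) with hQ
  have key : R m j (drop m n j) = 4 * (j : ℤ) ^ 2 * P
      - (Q - P) * (Q - P - 2 * ((j : ℤ) ^ 2 + drop m n j)) := by
    simp only [R, drop, hQ]
    push_cast
    rw [← hP]
    ring
  rw [key]
  exact dvd_sub (Dvd.dvd.mul_left h1 _) (Dvd.dvd.mul_right (dvd_sub h2 h1) _)

lemma odd_R (m n j : ℕ) (hm : 1 ≤ m) (h0 : a m n = 0) : Odd (R m j (drop m n j)) := by
  have hn := zero_ge m n hm h0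
  have h1 := parity m n hn
  rw [h0, zero_add] at h1
  have h2 := parity m (n + j) (by omega)
  rcases h1 with ⟨r, hr⟩
  rcases h2 with ⟨t, ht⟩
  have hA : (a m (n + j) : ℤ) = 2 * t - (n + j) := by
    have : ((a m (n + j) + (n + j) : ℕ) : ℤ) = ((t + t : ℕ) : ℤ) := by rw [ht]
    push_cast at this
    linarith
  have hs : Odd (drop m n j - (j : ℤ) ^ 2) := by
    have hn' : (n : ℤ) = r + r := by exact_mod_cast hr
    have hj : Even ((j : ℤ) - (j : ℤ) ^ 2) := by
      have := Int.even_mul_pred_self (j : ℤ)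
      have e : (j : ℤ) - (j : ℤ) ^ 2 = - ((j : ℤ) * (j - 1)) := by ring
      rw [e]
      exact this.neg
    rcases hj with ⟨u, hu⟩
    refine ⟨2 * r ^ 2 + 2 * r + (r + r + 1) * m - t + r + u, ?_⟩
    simp only [drop]
    rw [hA, hn']
    linarith [hu]
  have h3 : Odd ((drop m n j - (j : ℤ) ^ 2) ^ 2) := hs.pow
  have h4 : Even (4 * (j : ℤ) ^ 2 * (m : ℤ) ^ 2) := ⟨2 * (j : ℤ) ^ 2 * (m : ℤ) ^ 2, by ring⟩
  exact h3.sub_even h4

/-- The bound for the decrease. -/
def F (m : ℕ) : ℕ → ℕ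
  | 0 => 0
  | (j + 1) => F m j + (F m j + j ^ 2 + 2 * j * m) ^ 2

lemma F_mono (m i j : ℕ) (h : i ≤ j) : F m i ≤ F m j := by
  induction j, h using Nat.le_induction with
  | base => exact le_rfl
  | succ j _ ih => exact ih.trans (by simp only [F]; omega)

lemma R_le (m j : ℕ) (s : ℤ) (hs : 0 ≤ s) :
    |R m j s| ≤ (s + (j : ℤ) ^ 2 + 2 * j * m) ^ 2 := by
  have hj : (0 : ℤ) ≤ 2 * j * m := by positivity
  have e : R m j s = (s - (j : ℤ) ^ 2 - 2 * j * m) * (s - (j : ℤ) ^ 2 + 2 * j * m) := by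
    simp only [R]; ring
  have e2 : (s + (j : ℤ) ^ 2 + 2 * j * m) ^ 2
      = (s + (j : ℤ) ^ 2 + 2 * j * m) * (s + (j : ℤ) ^ 2 + 2 * j * m) := by
    ring
  rw [e, abs_mul, e2]
  have hj2 : (0 : ℤ) ≤ (j : ℤ) ^ 2 := by positivity
  apply mul_le_mul _ _ (abs_nonneg _) (by positivity)
  · rw [abs_le]; constructor <;> linarith
  · rw [abs_le]; constructor <;> linarith

lemma next (m n j : ℕ) (hj : 1 ≤ j)
    (h2 : drop m n j < ((n : ℤ) + 1) * ((n : ℤ) + 1 + 2 * m)) :
    drop m n (j + 1) = drop m n j + γ m (n + j) := by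
  have hpos : (0 : ℤ) < a m (n + j) := by
    simp only [drop] at h2
    linarith
  have hpos' : 0 < a m (n + j) := by exact_mod_cast hpos
  have hle : γ m (n + j) ≤ a m (n + j) := Nat.gcd_le_left _ hpos'
  have hsucc : (a m (n + (j + 1)) : ℤ) = a m (n + j) - γ m (n + j) := by
    rw [← add_assoc, a_succ m (n + j) (by omega)]
    rw [Int.natCast_natAbs, abs_of_nonneg]
    have : (γ m (n + j) : ℤ) ≤ a m (n + j) := by exact_mod_cast hle
    linarith
  simp only [drop]
  rw [hsucc]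
  ring

lemma drop_one (m n : ℕ) (hn : 1 ≤ n) (h0 : a m n = 0) : drop m n 1 = 0 := by
  simp only [drop]
  rw [a_after m n hn h0]
  push_cast
  ring

lemma step (m n j : ℕ) (hm : 1 ≤ m) (h0 : a m n = 0) (hj : 1 ≤ j) :
    (F m j : ℤ) < ((n : ℤ) + 1) * ((n : ℤ) + 1 + 2 * m) →
      0 ≤ drop m n j ∧ drop m n j ≤ F m j := by
  have hn := zero_ge m n hm h0
  induction j, hj using Nat.le_induction with
  | base =>
    intro _
    rw [drop_one m n (by omega) h0]
    exact ⟨le_rfl, by positivity⟩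
  | succ j hj ih =>
    intro hF
    have hmono : (F m j : ℤ) ≤ F m (j + 1) := by exact_mod_cast F_mono m j (j + 1) (by omega)
    obtain ⟨h1, h2⟩ := ih (by linarith)
    have hdrop := next m n j hj (by linarith)
    have hR : R m j (drop m n j) ≠ 0 := by
      intro h
      have := odd_R m n j hm h0
      rw [h] at this
      exact absurd this (by decide)
    have hγ : (γ m (n + j) : ℤ) ≤ |R m j (drop m n j)| := by
      apply Int.le_of_dvd (abs_pos.mpr hR)
      exact (dvd_abs _ _).mpr (gcd_dvd_R m n j)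
    have hb := R_le m j (drop m n j) h1
    have hb2 : (drop m n j + (j : ℤ) ^ 2 + 2 * j * m) ^ 2
        ≤ ((F m j : ℤ) + (j : ℤ) ^ 2 + 2 * j * m) ^ 2 := by
      apply pow_le_pow_left₀
      · positivity
      · linarith
    rw [hdrop]
    constructor
    · positivity
    · have : (F m (j + 1) : ℤ) = F m j + ((F m j : ℤ) + (j : ℤ) ^ 2 + 2 * j * m) ^ 2 := by
        simp only [F]
        push_cast
        ring
      rw [this]
      linarith

/-- The gcd subtracted after `j` steps depends only on the zero modulo `R`. -/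
lemma gcd_eq (m n k j : ℕ) (hs : drop m n j = drop m k j)
    (h : R m j (drop m n j) ∣ (n : ℤ) - k) : γ m (n + j) = γ m (k + j) := by
  have main : ∀ n k : ℕ, drop m n j = drop m k j → R m j (drop m n j) ∣ (n : ℤ) - k →
      γ m (n + j) ∣ γ m (k + j) := by
    intro n k hs h
    have h0 : ((γ m (n + j) : ℕ) : ℤ) ∣ (n : ℤ) - k := (gcd_dvd_R m n j).trans h
    have h1 : ((γ m (n + j) : ℕ) : ℤ) ∣ (a m (n + j) : ℤ) := by
      exact_mod_cast Nat.gcd_dvd_left _ _
    have h2 : ((γ m (n + j) : ℕ) : ℤ) ∣ (((n + j + 1) * (n + j + 1 + 2 * m) : ℕ) : ℤ) := by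
      exact_mod_cast Nat.gcd_dvd_right _ _
    have h3 : ((γ m (n + j) : ℕ) : ℤ) ∣ (a m (k + j) : ℤ) := by
      have e : (a m (k + j) : ℤ) = a m (n + j) - ((n : ℤ) - k) * (n + k + 2 + 2 * m) := by
        simp only [drop] at hs
        linarith
      rw [e]
      exact dvd_sub h1 (Dvd.dvd.mul_right h0 _)
    have h4 : ((γ m (n + j) : ℕ) : ℤ) ∣ (((k + j + 1) * (k + j + 1 + 2 * m) : ℕ) : ℤ) := by
      have e : (((k + j + 1) * (k + j + 1 + 2 * m) : ℕ) : ℤ)
          = (((n + j + 1) * (n + j + 1 + 2 * m) : ℕ) : ℤ)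
            - ((n : ℤ) - k) * (n + k + 2 * j + 2 + 2 * m) := by
        push_cast
        ring
      rw [e]
      exact dvd_sub h2 (Dvd.dvd.mul_right h0 _)
    exact Nat.dvd_gcd (by exact_mod_cast h3) (by exact_mod_cast h4)
  apply Nat.dvd_antisymm
  · exact main n k hs h
  · refine main k n hs.symm ?_
    rw [← hs]
    have := (dvd_neg (a := R m j (drop m n j))).mpr h
    rwa [neg_sub] at this

lemma large (m J j n : ℕ) (hj : j ≤ J) (hn : F m J ≤ n) :
    (F m j : ℤ) < ((n : ℤ) + 1) * ((n : ℤ) + 1 + 2 * m) := by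
  have h1 : (F m j : ℤ) ≤ n := by exact_mod_cast (F_mono m j J hj).trans hn
  have h2 : (0 : ℤ) ≤ m := by positivity
  have h3 : (0 : ℤ) ≤ n := by positivity
  nlinarith

/-- **The first steps after a zero.** Let `m ≥ 1` and let `a` be the sequence of the problem.
1. For every zero `n` and every `j` the gcd of `a (n + j)` and `(n + j + 1) (n + j + 1 + 2 m)`, which is subtracted at
the index `n + j + 1`, divides the odd (so nonzero) number `(s - j ^ 2) ^ 2 - 4 j ^ 2 m ^ 2`, where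
`s = (n + 1) (n + 1 + 2 m) - a (n + j)`.
2. For every `J` there is `C` such that `a (n + j) ≥ (n + 1) (n + 1 + 2 m) - C` for all zeros `n` and `1 ≤ j ≤ J`.
3. For every `J` there are `M ≥ 1` and `n₀` such that for all zeros `n, k ≥ n₀` with `n ≡ k (mod M)` the decreases
`(n + 1) (n + 1 + 2 m) - a (n + j)` and `(k + 1) (k + 1 + 2 m) - a (k + j)` are equal for `1 ≤ j ≤ J`. -/
theorem result (m : ℕ) (hm : 1 ≤ m) :
    (∀ n, a m n = 0 → ∀ j : ℕ, ∀ s : ℤ,
      (a m (n + j) : ℤ) = ((n : ℤ) + 1) * ((n : ℤ) + 1 + 2 * m) - s →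
      ((Nat.gcd (a m (n + j)) ((n + j + 1) * (n + j + 1 + 2 * m)) : ℕ) : ℤ) ∣
        (s - (j : ℤ) ^ 2) ^ 2 - 4 * (j : ℤ) ^ 2 * (m : ℤ) ^ 2 ∧
      Odd ((s - (j : ℤ) ^ 2) ^ 2 - 4 * (j : ℤ) ^ 2 * (m : ℤ) ^ 2)) ∧
    (∀ J : ℕ, ∃ C : ℕ, ∀ n, a m n = 0 → ∀ j, 1 ≤ j → j ≤ J →
      ((n : ℤ) + 1) * ((n : ℤ) + 1 + 2 * m) - C ≤ a m (n + j)) ∧
    (∀ J : ℕ, ∃ M n₀ : ℕ, 1 ≤ M ∧ ∀ n k, n₀ ≤ n → n₀ ≤ k → a m n = 0 → a m k = 0 →
      n ≡ k [MOD M] → ∀ j, 1 ≤ j → j ≤ J →
        ((n : ℤ) + 1) * ((n : ℤ) + 1 + 2 * m) - a m (n + j)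
          = ((k : ℤ) + 1) * ((k : ℤ) + 1 + 2 * m) - a m (k + j)) := by
  refine ⟨?_, ?_, ?_⟩
  · intro n h0 j s hs
    have hd : drop m n j = s := by simp only [drop]; linarith
    have h1 := gcd_dvd_R m n j
    have h2 := odd_R m n j hm h0
    rw [hd] at h1 h2
    exact ⟨h1, h2⟩
  · intro J
    refine ⟨F m J + (F m J + 1) * (F m J + 1 + 2 * m), fun n h0 j hj hjJ => ?_⟩
    by_cases hn : F m J ≤ n
    · have h1 := (step m n j hm h0 hj (large m J j n hjJ hn)).2
      have h2 : (F m j : ℤ) ≤ F m J := by exact_mod_cast F_mono m j J hjJ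
      have h3 : (0 : ℤ) ≤ ((F m J : ℤ) + 1) * (F m J + 1 + 2 * m) := by positivity
      simp only [drop] at h1
      push_cast
      linarith
    · have h1 : (n + 1) * (n + 1 + 2 * m) ≤ (F m J + 1) * (F m J + 1 + 2 * m) :=
        Nat.mul_le_mul (by omega) (by omega)
      have h2 : (((n + 1) * (n + 1 + 2 * m) : ℕ) : ℤ)
          ≤ (((F m J + 1) * (F m J + 1 + 2 * m) : ℕ) : ℤ) := by exact_mod_cast h1
      have h3 : (0 : ℤ) ≤ a m (n + j) := by positivity
      have h4 : (0 : ℤ) ≤ F m J := by positivity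
      push_cast at h2 ⊢
      linarith
  · intro J
    refine ⟨((F m J + J ^ 2 + 2 * J * m) ^ 2).factorial, F m J, Nat.factorial_pos _, ?_⟩
    intro n k hn hk h0 h0' hmod j hj
    have main : ∀ j, 1 ≤ j → j ≤ J → drop m n j = drop m k j := by
      intro j hj
      induction j, hj using Nat.le_induction with
      | base =>
        intro _
        rw [drop_one m n (by have := zero_ge m n hm h0; omega) h0,
          drop_one m k (by have := zero_ge m k hm h0'; omega) h0']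
      | succ j hj ih =>
        intro hJ
        have ihj : drop m n j = drop m k j := ih (by omega)
        have ln := large m J j n (by omega) hn
        have lk := large m J j k (by omega) hk
        obtain ⟨s0, s1⟩ := step m n j hm h0 hj ln
        obtain ⟨t0, t1⟩ := step m k j hm h0' hj lk
        have hR : R m j (drop m n j) ≠ 0 := by
          intro h
          have := odd_R m n j hm h0
          rw [h] at this
          exact absurd this (by decide)
        have hF : (F m j : ℤ) ≤ F m J := by exact_mod_cast F_mono m j J (by omega)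
        have hjJ : (j : ℤ) ≤ J := by exact_mod_cast (by omega : j ≤ J)
        have hj0 : (0 : ℤ) ≤ j := by positivity
        have hm0 : (0 : ℤ) ≤ m := by positivity
        have hRle : |R m j (drop m n j)| ≤ (((F m J + J ^ 2 + 2 * J * m) ^ 2 : ℕ) : ℤ) := by
          refine (R_le m j (drop m n j) s0).trans ?_
          push_cast
          apply pow_le_pow_left₀ (by positivity)
          have e1 : (j : ℤ) ^ 2 ≤ (J : ℤ) ^ 2 := pow_le_pow_left₀ hj0 hjJ 2
          have e2 : 2 * (j : ℤ) * m ≤ 2 * J * m := by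
            apply mul_le_mul_of_nonneg_right _ hm0
            linarith
          linarith
        have hdvd : R m j (drop m n j) ∣ (n : ℤ) - k := by
          have h1 : (R m j (drop m n j)).natAbs ∣ ((F m J + J ^ 2 + 2 * J * m) ^ 2).factorial := by
            apply Nat.dvd_factorial (Int.natAbs_pos.mpr hR)
            zify
            exact hRle
          have h2 : ((((F m J + J ^ 2 + 2 * J * m) ^ 2).factorial : ℕ) : ℤ) ∣ (n : ℤ) - k :=
            Nat.modEq_iff_dvd.mp hmod.symm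
          exact (Int.natAbs_dvd.mp (Int.natCast_dvd_natCast.mpr h1)).trans h2
        have hγ : γ m (n + j) = γ m (k + j) := gcd_eq m n k j ihj hdvd
        rw [next m n j hj (by linarith), next m k j hj (by linarith), ihj, hγ]
    intro hjJ
    have := main j hj hjJ
    simpa only [drop] using this

end Pool.Agent.Results.MP_9227d9_nt.AfterAZero
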