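import Pool.Agent.H531.GC.Fin

/-!
# The gcd recursion with `n (n + 2 m)` in the random model

With `b = a (n) + n` one has `(n + 1) (n + 2 m + 1) ≡ (b + 1) (b + 2 m + 1)` modulo `a (n)`, so that the recursion of the
problem reads `a (n + 1) = a (n) - gcd (a (n), (b + 1) (b + 2 m + 1))` for `a (n) ≠ 0`. In the model the number `b` is replaced,
in the stage after the zero `s`, by an integer `X s b`, uniformly distributed on `0, …, (b ^ 2)! - 1` (so that its residues
modulo the primes `l ≤ b ^ 2` are uniform and independent), all the `X s b` being independent. At a zero `n` with the preceding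
zero `s` the number `n + j` is replaced by `X s n + j`; it is prime in the model if `X s n + j` has no prime factor
`≤ √(n + j)`.
-/

set_option autoImplicit false

namespace Pool.Agent.Results.MP_9227d9_nt.RandomModel

open MeasureTheory ProbabilityTheory Filter Topology Pool.Agent.H531.GC
open Pool.Agent.T2H19.GR (Model T_MOD)

/-- (1) The recursion has exactly one solution for every array `X`, (2) for `X s b = b` it is the recursion of the problem,
and (3) `PrimeIn` then means prime. (4) The random model exists. (5) In the random model almost surely, for every `m ≥ 1`: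
(ii) there are infinitely many zeros; and for all but finitely many zeros `n`, with `s = σ n` the preceding zero:
(i) `n + 1` and `n + 2 m + 1` are prime in the model, (iii) no number between them is prime in the model, the substitute
of `(n + 1) (n + 2 m + 1)` even has no prime factor `≤ 2 n`, and `(s + 1) (s + 2 m + 1) ≤ 2 n`. -/
theorem result :
    (∀ (m : ℕ) (X : ℕ → ℕ → ℕ), ∃ a σ : ℕ → ℕ, IsRun m X a σ ∧
      ∀ a' σ' : ℕ → ℕ, IsRun m X a' σ' → ∀ n, 1 ≤ n → a' n = a n ∧ σ' n = σ n) ∧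
    (∀ (m : ℕ) (a : ℕ → ℤ), a 1 = 4 * m ^ 2 →
      (∀ n : ℕ, 2 ≤ n → a n = |a (n - 1) - (Int.gcd (a (n - 1)) ((n : ℤ) * (n + 2 * m)) : ℤ)|) →
      ∀ a' σ : ℕ → ℕ, IsRun m (fun _ b => b) a' σ → ∀ n, 1 ≤ n → (a' n : ℤ) = a n) ∧
    (∀ k : ℕ, 2 ≤ k → (PrimeIn k k ↔ k.Prime)) ∧
    (∃ (Ω : Type) (_ : MeasurableSpace Ω) (P : Measure Ω) (X : ℕ → ℕ → Ω → ℕ),
      Model (fun b => (b ^ 2).factorial) P X) ∧
    ∀ (Ω : Type) [MeasurableSpace Ω] (P : Measure Ω) (X : ℕ → ℕ → Ω → ℕ),
      Model (fun b => (b ^ 2).factorial) P X → ∀ a σ : ℕ → Ω → ℕ → ℕ,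
      (∀ m, 1 ≤ m → ∀ ω, IsRun m (fun s b => X s b ω) (a m ω) (σ m ω)) → ∀ᵐ ω ∂P, ∀ m, 1 ≤ m →
        (∀ N, ∃ n, N ≤ n ∧ a m ω n = 0) ∧
        ∃ N, ∀ n, N ≤ n → a m ω n = 0 →
          PrimeIn (n + 1) (X (σ m ω n) n ω + 1) ∧
          PrimeIn (n + 2 * m + 1) (X (σ m ω n) n ω + 2 * m + 1) ∧
          (∀ j, 0 < j → j < 2 * m → ¬ PrimeIn (n + 1 + j) (X (σ m ω n) n ω + 1 + j)) ∧
          (∀ l : ℕ, l.Prime → l ≤ 2 * n →
            ¬ l ∣ (X (σ m ω n) n ω + 1) * (X (σ m ω n) n ω + 2 * m + 1)) ∧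
          a m ω (σ m ω n) = 0 ∧ (σ m ω n + 1) * (σ m ω n + 2 * m + 1) ≤ 2 * n := by
  refine ⟨fun m X => ?_, ?_, fun k hk => Run.primeIn_self hk, ?_, ?_⟩
  · exact ⟨_, _, Run.isRun_st m X, fun a' σ' h => Run.run_unique (Run.isRun_st m X) h⟩
  · intro m a h1 h a' σ hr
    exact Run.literal m a h1 h a' σ hr
  · exact T_MOD (fun b => (b ^ 2).factorial) (fun b => Nat.factorial_pos _)
  · intro Ω _ P X hX a σ hrun
    exact model_main P X hX a σ hrun

end Pool.Agent.Results.MP_9227d9_nt.RandomModel
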